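import Pool.Agent.Q168.SC.Chain
import Pool.Agent.Q168.SC.Inv

/-!
# The virtual pure braid group on two strands up to self-crossing changes (MP_dfcdcf_gt, Q1)

All definitions are in `Pool.Agent.Q168.SC.Defs`. The group `vP_2` is free on `x` (a positive crossing
at which the first strand passes over the second one) and `y` (a positive crossing at which the second
strand passes over the first one). The braid `x y y x (y x x y)⁻¹`, the commutator of `x y` and `y x`,
is not trivial in `vP_2`, but it is sc-equivalent to the trivial string link.
-/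

set_option autoImplicit false

namespace Pool.Agent.Results.MP_dfcdcf_gt.VirtualNotInjective

open Q168.SC

theorem mono : D0.Monotone := by
  refine ⟨[0, 1, 2, 3, 4, 5, 6, 7], by decide, ?_⟩
  intro i
  fin_cases i <;> decide

/-- The map from `vP_2` to `vSL_2^{sc}` (with image `vP_2^{sc}`) is not injective: some pure virtual
braid `β ≠ 1` on two strands is sc-equivalent to the trivial string link. -/
theorem result : (∃ β : VP 2, β ≠ VP.one 2 ∧ β.toSC = VSLsc.one 2) ∧
    ¬ Function.Injective (VP.toSC (n := 2)) := by
  have h : ∃ β : VP 2, β ≠ VP.one 2 ∧ β.toSC = VSLsc.one 2 := by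
    refine ⟨Quot.mk _ ⟨D0, mono⟩, fun h => ?_, chain⟩
    have h1 : inv D0 = inv (Diagram.trivial 2) := congrArg VP.inv h
    revert h1
    decide
  refine ⟨h, fun hi => ?_⟩
  obtain ⟨β, h1, h2⟩ := h
  exact h1 (hi h2)

end Pool.Agent.Results.MP_dfcdcf_gt.VirtualNotInjective
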