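import Pool.Agent.Q168.SC.Chain
import Pool.Agent.Q168.SC.Inv

/-!
# The welded pure braid group on two strands up to self-crossing changes (MP_dfcdcf_gt, Q2)

All definitions are in `Pool.Agent.Q168.SC.Defs`. The group `wP_2` is free on `x` (a positive crossing
at which the first strand passes over the second one) and `y` (a positive crossing at which the second
strand passes over the first one). The braid `x y y x (y x x y)⁻¹`, the commutator of `x y` and `y x`,
is not trivial in `wP_2`, but it is sc-equivalent to the trivial string link.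
-/

set_option autoImplicit false

namespace Pool.Agent.Results.MP_dfcdcf_gt.WeldedNotInjective

open Q168.SC

theorem mono : D0.Monotone := by
  refine ⟨[0, 1, 2, 3, 4, 5, 6, 7], by decide, ?_⟩
  intro i
  fin_cases i <;> decide

/-- the natural map from `vSL_2^{sc}` to `wSL_2^{sc}` -/
def toW : VSLsc 2 → WSLsc 2 :=
  Quot.map id fun _ _ h => h.elim Or.inl fun h => Or.inr (Or.inr h)

/-- The map from `wP_2` to `wSL_2^{sc}` (with image `wP_2^{sc}`) is not injective: some pure welded
braid `β ≠ 1` on two strands is sc-equivalent to the trivial string link. -/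
theorem result : (∃ β : WP 2, β ≠ WP.one 2 ∧ β.toSC = WSLsc.one 2) ∧
    ¬ Function.Injective (WP.toSC (n := 2)) := by
  have h : ∃ β : WP 2, β ≠ WP.one 2 ∧ β.toSC = WSLsc.one 2 := by
    refine ⟨Quot.mk _ ⟨D0, mono⟩, fun h => ?_, congrArg toW chain⟩
    have h1 : inv D0 = inv (Diagram.trivial 2) := congrArg WP.inv h
    revert h1
    decide
  refine ⟨h, fun hi => ?_⟩
  obtain ⟨β, h1, h2⟩ := h
  exact h1 (hi h2)

end Pool.Agent.Results.MP_dfcdcf_gt.WeldedNotInjective
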